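import Pool.Agent.H520Z.Sel.Blocks

set_option autoImplicit false

namespace Pool.Agent.H369Z.Err

open Pool.Agent.H520Z.Sel
open Filter Topology Set

theorem blk_count : ∃ L0 : ℕ, 1 ≤ L0 ∧ ∀ L : ℕ, L0 ≤ L → ∀ κ : ℝ, 0 < κ → ∃ R0 : ℝ, 1 ≤ R0 ∧
    ∀ R : ℝ, R0 ≤ R → ∀ j : ℕ,
      (R * ((j : ℝ) + 1) ^ L) ^ (1 - 1 / (L : ℝ) - κ) ≤ ((blk R L j).card : ℝ) := by
  obtain ⟨θ, -, hθ1, hθ⟩ := Pool.Agent.H369Z.Hoh.hoheisel
  obtain ⟨L0, hL⟩ := exists_nat_ge (1 / (1 - θ))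
  have hL00 : (0 : ℝ) < L0 := lt_of_lt_of_le (by have := sub_pos.2 hθ1; positivity) hL
  refine ⟨L0, by exact_mod_cast (show 0 < L0 by exact_mod_cast hL00), fun L hLL κ hκ => ?_⟩
  have hLL' : (L0 : ℝ) ≤ L := by exact_mod_cast hLL
  have hL0 : (0 : ℝ) < L := lt_of_lt_of_le hL00 hLL'
  have hL1 : 1 ≤ L := by exact_mod_cast (show 0 < L by exact_mod_cast hL0)
  obtain ⟨θ₂, hθ₂⟩ : ∃ θ₂ : ℝ, θ₂ = 1 - 1 / (L : ℝ) := ⟨_, rfl⟩
  rw [← hθ₂]
  obtain ⟨γ, hγ⟩ : ∃ γ : ℝ, γ = θ₂ - κ := ⟨_, rfl⟩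
  rw [← hγ]
  have h1 : θ₂ < 1 := by
    have : 0 < 1 / (L : ℝ) := by positivity
    linarith
  have h2 : γ < θ₂ := by linarith
  have hL2 : θ₂ * L ≤ L - 1 := by
    rw [hθ₂]
    field_simp
    exact le_rfl
  have h0 : θ ≤ θ₂ := by
    have h := hL.trans hLL'
    rw [div_le_iff₀ (sub_pos.2 hθ1)] at h
    have h' : 1 / (L : ℝ) ≤ 1 - θ := by
      rw [div_le_iff₀ hL0]
      linarith
    linarith
  have h3 := hθ θ₂ h0 h1
  have h4 : ∀ᶠ y : ℝ in atTop, y ^ γ ≤ y ^ θ₂ / (Real.log y) ^ 3 := by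
    have h5 := (isLittleO_log_rpow_rpow_atTop (3 : ℝ) (sub_pos.2 h2)).bound (c := 1) one_pos
    filter_upwards [h5, eventually_gt_atTop 1] with y hy hy1
    have hl : 0 < Real.log y := Real.log_pos hy1
    rw [Real.norm_of_nonneg (by positivity), Real.norm_of_nonneg (by positivity), one_mul] at hy
    rw [le_div_iff₀ (by positivity)]
    have h6 : y ^ θ₂ = y ^ γ * y ^ (θ₂ - γ) := by
      rw [← Real.rpow_add (by linarith)]; ring_nf
    rw [h6]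
    apply mul_le_mul_of_nonneg_left _ (by positivity)
    have : Real.log y ^ (3 : ℝ) = Real.log y ^ 3 := by norm_cast
    rwa [this] at hy
  obtain ⟨R1, hR1⟩ := eventually_atTop.1 (h3.and h4)
  refine ⟨max R1 1, le_max_right _ _, fun R hR j => ?_⟩
  have hR1' : 1 ≤ R := (le_max_right _ _).trans hR
  have hj : (1 : ℝ) ≤ (j : ℝ) + 1 := by have := Nat.cast_nonneg (α := ℝ) j; linarith
  have hjL : (1 : ℝ) ≤ ((j : ℝ) + 1) ^ L := one_le_pow₀ hj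
  have hy : R1 ≤ R * ((j : ℝ) + 1) ^ L := by
    have := (le_max_left _ _).trans hR
    nlinarith
  obtain ⟨h6, h7⟩ := hR1 _ hy
  refine h7.trans (h6.trans ?_)
  have h8 : (R * ((j : ℝ) + 1) ^ L) ^ θ₂ ≤ R * ((j : ℝ) + 1) ^ (L - 1) := by
    rw [Real.mul_rpow (by linarith) (by positivity)]
    apply mul_le_mul
    · calc R ^ θ₂ ≤ R ^ (1 : ℝ) := Real.rpow_le_rpow_of_exponent_le hR1' h1.le
        _ = R := Real.rpow_one R
    · rw [← Real.rpow_natCast, ← Real.rpow_mul (by linarith), ← Real.rpow_natCast]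
      apply Real.rpow_le_rpow_of_exponent_le hj
      rw [Nat.cast_sub hL1]
      push_cast
      linarith
    · positivity
    · linarith
  have h9 : ((j : ℝ) + 1) ^ L + ((j : ℝ) + 1) ^ (L - 1) ≤ ((j : ℝ) + 2) ^ L := by
    obtain ⟨M, rfl⟩ : ∃ M, L = M + 1 := ⟨L - 1, by omega⟩
    simp only [Nat.add_sub_cancel, pow_succ]
    have : ((j : ℝ) + 1) ^ M ≤ ((j : ℝ) + 2) ^ M := by gcongr; linarith
    have h0 : (0 : ℝ) ≤ ((j : ℝ) + 1) ^ M := by positivity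
    nlinarith
  have h10 : R * ((j : ℝ) + 1) ^ L + (R * ((j : ℝ) + 1) ^ L) ^ θ₂ ≤ R * ((j : ℝ) + 2) ^ L := by
    nlinarith
  unfold blk
  exact_mod_cast Finset.card_le_card (Finset.filter_subset_filter _
    (Finset.Ioc_subset_Ioc_right (Nat.floor_le_floor h10)))

end Pool.Agent.H369Z.Err
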